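import Pool.Agent.Helper97K9.Shuffle.Rec

set_option linter.unusedSectionVars false
set_option linter.unusedVariables false

namespace Pool.Agent.Results.MP_005a57_co.NearLinearStrongShuffles

open Finset Equiv Pool.Agent.Helper97K9.Shuffle

/-- A lazy transposition on `[n] = Fin n` with parameters `(a, b, p)`, `a ≠ b`, `p ∈ [0,1]`. -/
structure LazyTransposition (n : ℕ) where
  a : Fin n
  b : Fin n
  ne : a ≠ b
  p : NNReal
  le_one : p ≤ 1

/-- The law of the random permutation which is the transposition `(a b)` with probability `p`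
and the identity with probability `1 - p`. -/
noncomputable def LazyTransposition.law {n : ℕ} (T : LazyTransposition n) : PMF (Perm (Fin n)) :=
  (PMF.bernoulli T.p T.le_one).map (fun c => if c = true then swap T.a T.b else 1)

/-- The law of the product `T₁ T₂ ⋯ T_l` of independent lazy transpositions. -/
noncomputable def productLaw {n : ℕ} : List (LazyTransposition n) → PMF (Perm (Fin n))
  | [] => PMF.pure 1
  | T :: ts => T.law.bind (fun τ => (productLaw ts).map (fun σ => τ * σ))

/-- `T₁, …, T_l` is a strong `(k,n)`-shuffle: for all `x₁ < ⋯ < x_k` the tuple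
`(σ x₁, …, σ x_k)`, `σ = T₁ ⋯ T_l`, equals every tuple of distinct elements with probability
`1 / (n (n-1) ⋯ (n-k+1))`. -/
def IsStrongShuffle (k : ℕ) {n : ℕ} (ts : List (LazyTransposition n)) : Prop :=
  ∀ x : Fin k → Fin n, StrictMono x → ∀ y : Fin k → Fin n, Function.Injective y →
    ((productLaw ts).map (fun σ => fun i => σ (x i))) y = ((n.descFactorial k : ℕ) : ENNReal)⁻¹

/-- The least length `U_k^all(n)` of a strong `(k,n)`-shuffle. -/
noncomputable def Uall (k n : ℕ) : ℕ :=
  sInf {l | ∃ ts : List (LazyTransposition n), ts.length = l ∧ IsStrongShuffle k ts}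

/-! ### From words of gates to lists of lazy transpositions -/

noncomputable def expect {n : ℕ} (q : PMF (Perm (Fin n))) (G : Perm (Fin n) → ℝ) : ℝ :=
  ∑ σ, (q σ).toReal * G σ

theorem expect_pure {n : ℕ} (G : Perm (Fin n) → ℝ) : expect (PMF.pure 1) G = G 1 := by
  unfold expect
  rw [Finset.sum_eq_single 1]
  · simp [PMF.pure_apply]
  · intro σ _ h; simp [PMF.pure_apply, h]
  · intro h; exact absurd (mem_univ _) h

theorem map_mul_apply {n : ℕ} (q : PMF (Perm (Fin n))) (τ σ : Perm (Fin n)) :
    (q.map (fun σ => τ * σ)) σ = q (τ⁻¹ * σ) := by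
  rw [PMF.map_apply, tsum_eq_single (τ⁻¹ * σ)]
  · rw [if_pos (by simp)]
  · intro σ' h
    rw [if_neg]
    intro h'
    apply h
    rw [h']; simp

theorem expect_map {n : ℕ} (q : PMF (Perm (Fin n))) (τ : Perm (Fin n)) (G : Perm (Fin n) → ℝ) :
    expect (q.map (fun σ => τ * σ)) G = expect q (fun σ => G (τ * σ)) := by
  unfold expect
  refine Fintype.sum_equiv (Equiv.mulLeft τ⁻¹) _ _ (fun σ => ?_)
  rw [map_mul_apply, Equiv.coe_mulLeft]
  simp

theorem productLaw_cons_apply {n : ℕ} (T : LazyTransposition n) (ts : List (LazyTransposition n))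
    (σ : Perm (Fin n)) :
    productLaw (T :: ts) σ
      = (1 - (T.p : ENNReal)) * productLaw ts σ
        + (T.p : ENNReal) * ((productLaw ts).map (fun σ => swap T.a T.b * σ)) σ := by
  rw [productLaw, LazyTransposition.law, PMF.bind_map, PMF.bind_apply, tsum_bool]
  simp only [Function.comp_apply, PMF.bernoulli_apply, cond_false, cond_true, Bool.false_eq_true,
    if_false, if_true, one_mul]
  congr 2
  exact congrFun (congrArg DFunLike.coe (PMF.map_id (productLaw ts))) σ

theorem expect_cons {n : ℕ} (T : LazyTransposition n) (ts : List (LazyTransposition n))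
    (G : Perm (Fin n) → ℝ) :
    expect (productLaw (T :: ts)) G
      = (1 - (T.p : ℝ)) * expect (productLaw ts) G
        + (T.p : ℝ) * expect (productLaw ts) (fun σ => G (swap T.a T.b * σ)) := by
  rw [← expect_map]
  unfold expect
  rw [Finset.mul_sum, Finset.mul_sum, ← Finset.sum_add_distrib]
  apply Finset.sum_congr rfl
  intro σ _
  rw [productLaw_cons_apply, ENNReal.toReal_add, ENNReal.toReal_mul, ENNReal.toReal_mul,
    ENNReal.toReal_sub_of_le, ENNReal.toReal_one, ENNReal.coe_toReal]
  · ring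
  · exact_mod_cast T.le_one
  · simp
  · exact ENNReal.mul_ne_top (by simp) (PMF.apply_ne_top _ _)
  · exact ENNReal.mul_ne_top (by simp) (PMF.apply_ne_top _ _)

theorem exists_list {n : ℕ} (k : ℕ) (w : List (Gate (Fin n))) (hw : Valid w) :
    ∃ ts : List (LazyTransposition n), ts.length ≤ w.length ∧
      ∀ (F : Fn k (Fin n)) (x : Fin k → Fin n),
        expect (productLaw ts) (fun σ => F (fun i => σ (x i))) = opL k w F x := by
  induction w with
  | nil =>
    refine ⟨[], le_rfl, fun F x => ?_⟩
    rw [productLaw, expect_pure]; rfl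
  | cons g t ih =>
    obtain ⟨ts, hl, hts⟩ := ih (fun g' hg' => hw g' (by simp [hg']))
    obtain ⟨h0, h1⟩ := hw g (by simp)
    by_cases hab : g.a = g.b
    · refine ⟨ts, by simp; omega, fun F x => ?_⟩
      rw [hts, opL_cons]
      congr 1
      have : gateOp k g F = F := by
        funext z
        rw [gateOp_apply, hab, swap_self]
        simp only [Equiv.refl_apply]
        ring
      rw [this]
    · refine ⟨⟨g.a, g.b, hab, g.p.toNNReal, Real.toNNReal_le_one.2 h1⟩ :: ts, by simpa using hl,
        fun F x => ?_⟩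
      rw [expect_cons, opL_cons, ← hts]
      simp only [Real.coe_toNNReal _ h0]
      unfold expect
      rw [Finset.mul_sum, Finset.mul_sum, ← Finset.sum_add_distrib]
      apply Finset.sum_congr rfl
      intro σ _
      simp only [gateOp_apply, Perm.mul_apply]
      ring

/-! ### Counting -/

theorem avg_act {n k : ℕ} (τ : Perm (Fin n)) (F : Fn k (Fin n)) :
    avg k (Fin n) (act k τ F) = avg k (Fin n) F := by
  funext x
  rw [avg_apply, avg_apply]
  congr 1
  exact Fintype.sum_equiv (Equiv.mulLeft τ) _ _ (fun σ => rfl)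

theorem avg_indicator {n k : ℕ} {x y : Fin k → Fin n} (hx : Function.Injective x)
    (hy : Function.Injective y) :
    avg k (Fin n) (fun z => if z = y then (1:ℝ) else 0) x = ((n.descFactorial k : ℕ) : ℝ)⁻¹ := by
  classical
  have hsame : ∀ z : Fin k → Fin n, Function.Injective z →
      avg k (Fin n) (fun u => if u = z then (1:ℝ) else 0) x
        = avg k (Fin n) (fun u => if u = y then (1:ℝ) else 0) x := by
    intro z hz
    obtain ⟨π, hπ⟩ := exists_perm_comp y z (fun i j => by
      constructor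
      · intro h; rw [hy h]
      · intro h; rw [hz h])
    rw [← avg_act π (fun u => if u = z then (1:ℝ) else 0)]
    have hfun : act k π (fun u : Fin k → Fin n => if u = z then (1:ℝ) else 0)
        = fun u => if u = y then (1:ℝ) else 0 := by
      funext u
      rw [act_apply]
      congr 1
      apply propext
      constructor
      · intro h
        funext i
        apply π.injective
        rw [hπ i]
        exact congrFun h i
      · intro h
        funext i
        rw [h, hπ i]
    rw [hfun]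
  have hsum : ∑ z ∈ univ.filter (fun z : Fin k → Fin n => Function.Injective z),
      avg k (Fin n) (fun u => if u = z then (1:ℝ) else 0) x = 1 := by
    simp only [avg_apply]
    rw [← Finset.mul_sum, Finset.sum_comm]
    have : ∀ σ : Perm (Fin n), ∑ z ∈ univ.filter (fun z : Fin k → Fin n => Function.Injective z),
        (if (fun i => σ (x i)) = z then (1:ℝ) else 0) = 1 := by
      intro σ
      rw [Finset.sum_ite_eq, if_pos]
      rw [mem_filter]
      exact ⟨mem_univ _, σ.injective.comp hx⟩
    simp only [this, Finset.sum_const, Finset.card_univ, nsmul_eq_mul, mul_one]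
    exact inv_mul_cancel₀ (by exact_mod_cast Fintype.card_ne_zero)
  rw [Finset.sum_congr rfl (fun z hz => hsame z (mem_filter.1 hz).2), Finset.sum_const,
    nsmul_eq_mul] at hsum
  have hcard : (univ.filter (fun z : Fin k → Fin n => Function.Injective z)).card
      = n.descFactorial k := by
    have h1 : Fintype.card (Fin k ↪ Fin n) = n.descFactorial k := by
      rw [Fintype.card_embedding_eq, Fintype.card_fin, Fintype.card_fin]
    rw [← h1, ← Fintype.card_subtype]
    exact Fintype.card_congr (Equiv.subtypeInjectiveEquivEmbedding (Fin k) (Fin n))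
  rw [hcard] at hsum
  exact eq_inv_of_mul_eq_one_right hsum

theorem strong_of_unif {n k : ℕ} (hk : k ≤ n) {w : List (Gate (Fin n))} (hw : Valid w)
    (hu : Unif k w) : ∃ ts : List (LazyTransposition n), ts.length ≤ w.length ∧
      IsStrongShuffle k ts := by
  obtain ⟨ts, hl, hts⟩ := exists_list k w hw
  refine ⟨ts, hl, ?_⟩
  intro x hx y hy
  have h1 := hts (fun z => if z = y then (1:ℝ) else 0) x
  rw [hu, avg_indicator hx.injective hy] at h1
  unfold expect at h1
  have h2 : ((productLaw ts).map (fun σ => fun i => σ (x i))) y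
      = ∑ σ, if y = (fun i => σ (x i)) then productLaw ts σ else 0 := by
    rw [PMF.map_apply, tsum_fintype]
    apply Finset.sum_congr rfl
    intro σ _
    congr
  have hne : ((productLaw ts).map (fun σ => fun i => σ (x i))) y ≠ ⊤ := PMF.apply_ne_top _ _
  rw [← ENNReal.toReal_eq_toReal_iff' hne (by
    rw [Ne, ENNReal.inv_eq_top]
    have : 0 < n.descFactorial k := Nat.descFactorial_pos.2 hk
    exact_mod_cast this.ne')]
  rw [ENNReal.toReal_inv, ENNReal.toReal_natCast, ← h1, h2, ENNReal.toReal_sum]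
  · apply Finset.sum_congr rfl
    intro σ _
    by_cases h : (fun i => σ (x i)) = y
    · simp [h]
    · simp only [if_neg (fun h' => h h'.symm : ¬ y = fun i => σ (x i)), if_neg h]; simp
  · intro σ _
    split_ifs
    · exact PMF.apply_ne_top _ _
    · simp

theorem Uall_le {n k ℓ : ℕ} (hk : k ≤ n) (h : Has k (Fin n) ℓ) :
    (∃ ts : List (LazyTransposition n), IsStrongShuffle k ts) ∧ Uall k n ≤ ℓ := by
  obtain ⟨w, h1, h2, h3⟩ := h
  obtain ⟨ts, hl, hts⟩ := strong_of_unif hk h1 h2
  refine ⟨⟨ts, hts⟩, ?_⟩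
  have : Uall k n ≤ ts.length := Nat.sInf_le ⟨ts, rfl, hts⟩
  omega

/-- **Strong shuffles of near-linear length.**  For fixed `k`, `U_k^all(n) ≤ C n (log n)^D`; in
particular `U_k^all(n) = O(n^(1+ε))` for every `ε > 0`. -/
theorem result : ∀ k : ℕ, 1 ≤ k →
    (∃ (C : ℝ) (D : ℕ), ∀ n : ℕ, k ≤ n → 2 ≤ n →
      (Uall k n : ℝ) ≤ C * (n * Real.log n ^ D)) ∧
    (∀ ε : ℝ, 0 < ε → ∃ C : ℝ, ∀ n : ℕ, k ≤ n →
      (∃ ts : List (LazyTransposition n), IsStrongShuffle k ts) ∧
        (Uall k n : ℝ) ≤ C * (n : ℝ) ^ (1 + ε)) := by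
  intro k hk
  obtain ⟨K, D, hK, hmain⟩ := main_bound k
  constructor
  swap
  · intro ε hε
    obtain ⟨ℓ1, hℓ1⟩ := has_exists k 1
    -- log bound
    have hD : (0:ℝ) < (D:ℝ) + 1 := by positivity
    set δ : ℝ := ε / (D + 1) with hδ
    have hδ0 : 0 < δ := by positivity
    refine ⟨K * (1 / δ + 1) ^ D + ℓ1, fun n hkn => ?_⟩
    have hn1 : 1 ≤ n := hk.trans hkn
    have hn1R : (1:ℝ) ≤ (n:ℝ) := by exact_mod_cast hn1
    have hpow1 : (1:ℝ) ≤ (n:ℝ) ^ (1 + ε) := Real.one_le_rpow hn1R (by linarith)
    have hKD : 0 ≤ K * (1 / δ + 1) ^ D := by positivity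
    rcases Nat.lt_or_ge n 2 with h2 | h2
    · have hn : n = 1 := by omega
      subst hn
      obtain ⟨h3, h4⟩ := Uall_le hkn hℓ1
      refine ⟨h3, ?_⟩
      have h5 : (Uall k 1 : ℝ) ≤ ℓ1 := by exact_mod_cast h4
      calc (Uall k 1 : ℝ) ≤ ℓ1 := h5
        _ ≤ (K * (1 / δ + 1) ^ D + ℓ1) * 1 := by linarith
        _ ≤ _ := mul_le_mul_of_nonneg_left hpow1 (by positivity)
    · obtain ⟨ℓ, hℓ, hℓ'⟩ := hmain n h2
      obtain ⟨h3, h4⟩ := Uall_le hkn hℓ
      refine ⟨h3, ?_⟩
      have h5 : (Uall k n : ℝ) ≤ ℓ := by exact_mod_cast h4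
      have hlog0 : 0 ≤ Real.log n := Real.log_nonneg hn1R
      have hlog : Real.log n ≤ (1 / δ + 1) * (n:ℝ) ^ δ := by
        have := Real.log_le_rpow_div (x := (n:ℝ)) (ε := δ) (by linarith) hδ0
        have hp : 0 ≤ (n:ℝ) ^ δ := by positivity
        calc Real.log n ≤ (n:ℝ) ^ δ / δ := this
          _ = (1 / δ) * (n:ℝ) ^ δ := by ring
          _ ≤ (1 / δ + 1) * (n:ℝ) ^ δ := by nlinarith
      have hlogD : Real.log n ^ D ≤ (1 / δ + 1) ^ D * (n:ℝ) ^ ε := by
        calc Real.log n ^ D ≤ ((1 / δ + 1) * (n:ℝ) ^ δ) ^ D := pow_le_pow_left₀ hlog0 hlog D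
          _ = (1 / δ + 1) ^ D * ((n:ℝ) ^ δ) ^ D := mul_pow _ _ _
          _ ≤ (1 / δ + 1) ^ D * (n:ℝ) ^ ε := by
            apply mul_le_mul_of_nonneg_left _ (by positivity)
            rw [← Real.rpow_natCast, ← Real.rpow_mul (by linarith)]
            apply Real.rpow_le_rpow_of_exponent_le hn1R
            rw [hδ, div_mul_eq_mul_div, div_le_iff₀ hD]
            nlinarith
      calc (Uall k n : ℝ) ≤ K * (n * Real.log n ^ D) := h5.trans hℓ'
        _ ≤ K * (n * ((1 / δ + 1) ^ D * (n:ℝ) ^ ε)) := by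
            apply mul_le_mul_of_nonneg_left _ hK
            exact mul_le_mul_of_nonneg_left hlogD (by linarith)
        _ = (K * (1 / δ + 1) ^ D) * (n:ℝ) ^ (1 + ε) := by
            rw [Real.rpow_add (by linarith), Real.rpow_one]; ring
        _ ≤ (K * (1 / δ + 1) ^ D + ℓ1) * (n:ℝ) ^ (1 + ε) := by
            apply mul_le_mul_of_nonneg_right _ (by linarith)
            have : (0:ℝ) ≤ ℓ1 := by positivity
            linarith
  · refine ⟨K, D, fun n hkn h2 => ?_⟩
    obtain ⟨ℓ, hℓ, hℓ'⟩ := hmain n h2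
    obtain ⟨h3, h4⟩ := Uall_le hkn hℓ
    have h5 : (Uall k n : ℝ) ≤ ℓ := by exact_mod_cast h4
    exact h5.trans hℓ'

end Pool.Agent.Results.MP_005a57_co.NearLinearStrongShuffles
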